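import Pool.Agent.MP_c1891a_nt.G43.SpecA

/-
Exponentials of algebraic functions are linearly independent.
-/

namespace Pool.Agent.MP_c1891a_nt.G43

open Finset Polynomial

section

variable {K F : Type} [Field K] [CharZero K] [Field F] [Algebra K F]

omit [CharZero K] in
theorem ko_aeval (R : Subalgebra K F) {x : F} (hx : IsAlgebraic R x) (q : R[X]) :
    IsAlgebraic R (aeval x q) := by
  have h : Algebra.adjoin R {x} ≤ Subalgebra.algebraicClosure R F :=
    Algebra.adjoin_le (Set.singleton_subset_iff.2 hx)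
  exact h (aeval_mem_adjoin_singleton R x)

/-- the values of a derivation on the algebraic elements -/
theorem ko_key (s : Set F) (δ : Derivation K F F) (N : F → Prop) (h0 : N 0)
    (hadd : ∀ u v, N u → N v → N (u + v))
    (hmul : ∀ u v, IsAlgebraic (Algebra.adjoin K s) u → N v → N (u * v))
    (hs : ∀ u ∈ s, N (δ u)) {x : F} (hx : IsAlgebraic (Algebra.adjoin K s) x) : N (δ x) := by
  have hR : ∀ u ∈ Algebra.adjoin K s, N (δ u) := by
    intro u hu
    induction hu using Algebra.adjoin_induction with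
    | mem u hu => exact hs u hu
    | algebraMap r => rw [δ.map_algebraMap]; exact h0
    | add u v _ _ h1 h2 => rw [map_add]; exact hadd _ _ h1 h2
    | mul u v hu hv h1 h2 =>
      rw [δ.leibniz, smul_eq_mul, smul_eq_mul]
      exact hadd _ _ (hmul _ _ (isAlgebraic_algebraMap (⟨u, hu⟩ : Algebra.adjoin K s)) h2)
        (hmul _ _ (isAlgebraic_algebraMap (⟨v, hv⟩ : Algebra.adjoin K s)) h1)
  have hd : ∀ p : (Algebra.adjoin K s)[X],
      ∃ m, N m ∧ δ (aeval x p) = m + aeval x (derivative p) * δ x := by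
    intro p
    induction p using Polynomial.induction_on' with
    | add p q hp hq =>
      obtain ⟨m, h1, h2⟩ := hp
      obtain ⟨m', h1', h2'⟩ := hq
      refine ⟨m + m', hadd _ _ h1 h1', ?_⟩
      rw [map_add, map_add, h2, h2', derivative_add, map_add]
      ring
    | monomial k r =>
      refine ⟨x ^ k * δ r, hmul _ _ (hx.pow k) (hR r r.2), ?_⟩
      rw [derivative_monomial, aeval_monomial, aeval_monomial, δ.leibniz, δ.leibniz_pow, map_mul,
        map_natCast]
      simp only [smul_eq_mul, nsmul_eq_mul, Subalgebra.algebraMap_apply]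
      ring
  have : CharZero F := charZero_of_injective_algebraMap (algebraMap K F).injective
  have main : ∀ (n : ℕ) (p : (Algebra.adjoin K s)[X]), p.natDegree = n → p ≠ 0 →
      aeval x p = 0 → N (δ x) := by
    intro n
    induction n using Nat.strong_induction_on with
    | _ n ih =>
      intro p hn hp h
      have hn0 : p.natDegree ≠ 0 := by
        intro h1
        rw [eq_C_of_natDegree_eq_zero h1] at h hp
        rw [aeval_C] at h
        have h2 : p.coeff 0 = 0 := Subtype.ext h
        exact hp (by rw [h2, map_zero])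
      by_cases h1 : aeval x (derivative p) = 0
      · exact ih _ (hn ▸ natDegree_derivative_lt hn0) _ rfl
          (fun h2 => hn0 (derivative_eq_zero.1 h2)) h1
      · obtain ⟨m, h2, h3⟩ := hd p
        rw [h, map_zero] at h3
        have h4 : δ x = -(aeval x (derivative p))⁻¹ * m := by
          field_simp
          linear_combination -h3
        rw [h4]
        exact hmul _ _ (ko_aeval _ hx _).inv.neg h2
  obtain ⟨p, hp, h⟩ := hx
  exact main _ p rfl hp h

variable {n : ℕ} {y : Fin n → F} {D : Fin n → Derivation K F F}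

theorem ko_alg (hD : ∀ i j, D i (y j) = if j = i then 1 else 0) (l : Fin n) {x : F}
    (hx : IsAlgebraic (Algebra.adjoin K (Set.range y)) x) :
    IsAlgebraic (Algebra.adjoin K (Set.range y)) (D l x) := by
  refine ko_key _ (D l) (IsAlgebraic (Algebra.adjoin K (Set.range y))) isAlgebraic_zero
    (fun _ _ h1 h2 => h1.add h2) (fun _ _ h1 h2 => h1.mul h2) ?_ hx
  rintro _ ⟨j, rfl⟩
  rw [hD]
  split_ifs
  · exact isAlgebraic_one
  · exact isAlgebraic_zero

theorem ko_chain (hD : ∀ i j, D i (y j) = if j = i then 1 else 0) (δ : Derivation K F F) {x : F}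
    (hx : IsAlgebraic (Algebra.adjoin K (Set.range y)) x) : δ x = ∑ l, δ (y l) * D l x := by
  have e : ∀ z, (δ - ∑ l, δ (y l) • D l) z = δ z - ∑ l, δ (y l) * D l z := fun z => by
    have h1 : (∑ l, δ (y l) • D l) z = ∑ l, (δ (y l) • D l) z := by
      have h2 := map_sum (Derivation.coeFnAddMonoidHom (R := K) (A := F) (M := F))
        (fun l => δ (y l) • D l) univ
      have h3 := congrFun h2 z
      rw [Finset.sum_apply] at h3
      exact h3
    rw [Derivation.sub_apply, h1]
    rfl
  have h := ko_key (Set.range y) (δ - ∑ l, δ (y l) • D l) (fun z => z = 0) rfl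
    (fun _ _ h1 h2 => by rw [h1, h2, add_zero]) (fun _ _ _ h2 => by rw [h2, mul_zero])
    (by
      rintro _ ⟨j, rfl⟩
      simp [e, hD]) hx
  rw [e] at h
  exact sub_eq_zero.1 h

theorem ko_log [IsAlgClosed K] (h : SRos) (hD : ∀ i j, D i (y j) = if j = i then 1 else 0)
    {b a : F} (hb : IsAlgebraic (Algebra.adjoin K (Set.range y)) b)
    (ha : IsAlgebraic (Algebra.adjoin K (Set.range y)) a) (hb0 : b ≠ 0)
    (hl : ∀ l, D l b = b * D l a) : a ∈ Set.range (algebraMap K F) := by
  have h1 := (h K F Unit (fun _ => 1) (fun _ => b) a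
    (linearIndependent_unique_iff.2 one_ne_zero) (fun _ => hb0) fun δ => by
      rw [Finset.univ_unique, Finset.sum_singleton, one_smul, ko_chain hD δ hb, ko_chain hD δ ha,
        div_eq_iff hb0, Finset.sum_mul]
      refine Finset.sum_congr rfl fun l _ => ?_
      rw [hl]
      ring).2
  exact minpoly.mem_range_of_degree_eq_one K a
    (IsAlgClosed.degree_eq_one_of_irreducible K (minpoly.irreducible h1.isIntegral))

theorem ko_indep [IsAlgClosed K] (h : SRos) (hD : ∀ i j, D i (y j) = if j = i then 1 else 0)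
    {τ : Type} (S a : τ → F) (J : Finset τ) :
    (∀ j ∈ J, IsAlgebraic (Algebra.adjoin K (Set.range y)) (a j) ∧
      ∀ l, D l (S j) = S j * D l (a j)) →
    (∀ i ∈ J, ∀ j ∈ J, a i - a j ∈ Set.range (algebraMap K F) → i = j) →
    ∀ b : τ → F, (∀ j ∈ J, IsAlgebraic (Algebra.adjoin K (Set.range y)) (b j)) →
      ∑ j ∈ J, b j * S j = 0 → ∀ j ∈ J, b j * S j = 0 := by
  classical
  induction J using Finset.strongInduction with
  | H J ih =>
    intro ha hne b hb hrel j₀ hj₀
    by_contra hn
    have hb0 : b j₀ ≠ 0 := left_ne_zero_of_mul hn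
    have hS0 : S j₀ ≠ 0 := right_ne_zero_of_mul hn
    have hb' : ∀ j ∈ J, IsAlgebraic (Algebra.adjoin K (Set.range y)) (b j / b j₀) := fun j hj => by
      rw [div_eq_mul_inv]
      exact (hb j hj).mul (hb j₀ hj₀).inv
    have hrel' : S j₀ + ∑ j ∈ J.erase j₀, b j / b j₀ * S j = 0 := by
      have h1 : ∑ j ∈ J, b j / b j₀ * S j = (∑ j ∈ J, b j * S j) / b j₀ := by
        rw [Finset.sum_div]
        exact Finset.sum_congr rfl fun j _ => by ring
      rw [hrel, zero_div, ← Finset.add_sum_erase J _ hj₀, div_self hb0, one_mul] at h1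
      exact h1
    have hsub : ∀ j ∈ J.erase j₀, j ∈ J := fun j hj => Finset.mem_of_mem_erase hj
    have h2 : ∀ l, ∀ j ∈ J.erase j₀,
        (D l (b j / b j₀) - b j / b j₀ * D l (a j₀ - a j)) * S j = 0 := fun l => by
      refine ih _ (Finset.erase_ssubset hj₀) (fun j hj => ha j (hsub j hj))
        (fun i hi j hj => hne i (hsub i hi) j (hsub j hj)) _
        (fun j hj => (ko_alg hD l (hb' j (hsub j hj))).sub ((hb' j (hsub j hj)).mul
          (ko_alg hD l ((ha j₀ hj₀).1.sub (ha j (hsub j hj)).1)))) ?_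
      have h3 := congrArg (D l) hrel'
      rw [map_zero, map_add, map_sum, (ha j₀ hj₀).2 l] at h3
      have h4 : ∑ j ∈ J.erase j₀, (D l (b j / b j₀) - b j / b j₀ * D l (a j₀ - a j)) * S j =
          ∑ j ∈ J.erase j₀, D l (b j / b j₀ * S j) -
            (∑ j ∈ J.erase j₀, b j / b j₀ * S j) * D l (a j₀) := by
        rw [Finset.sum_mul, ← Finset.sum_sub_distrib]
        refine Finset.sum_congr rfl fun j hj => ?_
        rw [Derivation.leibniz, (ha j (hsub j hj)).2 l, map_sub, smul_eq_mul, smul_eq_mul]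
        ring
      rw [h4]
      linear_combination h3 - D l (a j₀) * hrel'
    have h5 : ∀ j ∈ J.erase j₀, b j / b j₀ * S j = 0 := fun j hj => by
      by_contra hc
      have h6 := ko_log h hD (hb' j (hsub j hj)) ((ha j₀ hj₀).1.sub (ha j (hsub j hj)).1)
        (left_ne_zero_of_mul hc) fun l =>
          sub_eq_zero.1 ((mul_eq_zero.1 (h2 l j hj)).resolve_right (right_ne_zero_of_mul hc))
      exact Finset.ne_of_mem_erase hj (hne j₀ hj₀ j (hsub j hj) h6).symm
    rw [Finset.sum_eq_zero h5, add_zero] at hrel'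
    exact hS0 hrel'

end

theorem sKO (h : SRos) : SKO := by
  intro K F ι _ _ _ _ _ n y D I a E c hD hI hsum i₀ hi₀
  classical
  let A : AddSubgroup F := (algebraMap K F).toAddMonoidHom.range
  let κ : ι → F ⧸ A := fun i => QuotientAddGroup.mk (a i)
  have hκ : ∀ i j, κ i = κ j ↔ a i - a j ∈ Set.range (algebraMap K F) := fun i j =>
    QuotientAddGroup.eq_iff_sub_mem
  have hex : ∀ q : F ⧸ A, ∃ i, q ∈ I.image κ → i ∈ I ∧ κ i = q := fun q => by
    by_cases hq : q ∈ I.image κ
    · obtain ⟨i, hi, rfl⟩ := Finset.mem_image.1 hq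
      exact ⟨i, fun _ => ⟨hi, rfl⟩⟩
    · exact ⟨i₀, fun h => absurd h hq⟩
  choose r hr using hex
  have h1 := ko_indep h hD (fun q => ∑ i ∈ I with κ i = q, c i • E i) (fun q => a (r q))
    (I.image κ)
    (fun q hq => ⟨(hI _ (hr q hq).1).1, fun l => by
      rw [map_sum, Finset.sum_mul]
      refine Finset.sum_congr rfl fun i hi => ?_
      obtain ⟨hi1, hi2⟩ := Finset.mem_filter.1 hi
      obtain ⟨k, hk⟩ := (hκ i (r q)).1 (hi2.trans (hr q hq).2.symm)
      have h2 : D l (a i) = D l (a (r q)) := by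
        rw [← sub_eq_zero, ← map_sub, ← hk, Derivation.map_algebraMap]
      rw [Derivation.map_smul, (hI i hi1).2.2 l, h2, smul_mul_assoc]⟩)
    (fun q hq q' hq' hm => by rw [← (hr q hq).2, ← (hr q' hq').2]; exact (hκ _ _).2 hm)
    (fun _ => 1) (fun _ _ => isAlgebraic_one)
    (by
      simp only [one_mul]
      rw [Finset.sum_fiberwise_of_maps_to fun i hi => Finset.mem_image_of_mem κ hi]
      exact hsum)
    (κ i₀) (Finset.mem_image_of_mem κ hi₀)
  rw [one_mul] at h1
  rw [← h1]
  refine Finset.sum_congr ?_ fun _ _ => rfl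
  ext i
  simp only [Finset.mem_filter, hκ]

end Pool.Agent.MP_c1891a_nt.G43
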